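import Pool.Agent.Helper72.AI.Basic
import Pool.Agent.Helper72.AI.Stmts

set_option autoImplicit false

namespace Pool.Agent.Helper93.AI

open AffInc

lemma pR_cont {G : Set (ℝ × ℝ)} {L : ℝ → ℝ} {P : ℝ × ℝ → ℝ × ℝ} (ρ τ : ℝ)
    (hL : MaxChord G L) (hP : LowChord G L P) :
    ContinuousOn (fun q : ℝ × ℝ => pR L P ρ τ q.1 q.2) (Set.univ ×ˢ Set.Icc (0:ℝ) 1) := by
  have hdir : Continuous (fun q : ℝ × ℝ => dir q.1) := by
    unfold dir
    exact (Real.continuous_cos.comp continuous_fst).prodMk (Real.continuous_sin.comp continuous_fst)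
  have hLc : Continuous (fun q : ℝ × ℝ => q.2 * L q.1) :=
    continuous_snd.mul (hL.cont.comp continuous_fst)
  have hP1 : ContinuousOn (fun q : ℝ × ℝ => P (q.1, q.2)) (Set.univ ×ˢ Set.Icc (0:ℝ) 1) := hP.cont
  have hP2 : ContinuousOn (fun q : ℝ × ℝ => P (q.1 + Real.pi, q.2))
      (Set.univ ×ˢ Set.Icc (0:ℝ) 1) := by
    refine hP.cont.comp (f := fun q : ℝ × ℝ => (q.1 + Real.pi, q.2)) ?_ ?_
    · exact ((continuous_fst.add continuous_const).prodMk continuous_snd).continuousOn
    · rintro q ⟨-, hq⟩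
      exact ⟨Set.mem_univ _, hq⟩
  unfold pR
  exact (((hP1.add (hLc.smul hdir).continuousOn).const_smul (1 - ρ)).add (hP2.const_smul ρ)).add
    ((continuous_const.mul hLc).smul hdir).continuousOn

theorem pf_S_ivt : AffInc.S_ivt := by
  intro G L P ρ τ hG hL hP h0 h1 hmono
  have hGc : IsClosed G := hG.cpt.isClosed
  have hpc := pR_cont ρ τ hL hP
  -- continuity in each variable
  have hca : ∀ θ, ContinuousOn (fun a : ℝ => pR L P ρ τ θ a) (Set.Icc (0:ℝ) 1) := by
    intro θ
    refine hpc.comp (f := fun a : ℝ => (θ, a)) ?_ ?_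
    · exact (continuous_const.prodMk continuous_id).continuousOn
    · intro a ha
      exact ⟨Set.mem_univ _, ha⟩
  have hcθ : ∀ a ∈ Set.Icc (0:ℝ) 1, Continuous (fun θ : ℝ => pR L P ρ τ θ a) := by
    intro a ha
    rw [← continuousOn_univ]
    refine hpc.comp (f := fun θ : ℝ => (θ, a)) ?_ ?_
    · exact (continuous_id.prodMk continuous_const).continuousOn
    · intro θ _
      exact ⟨Set.mem_univ _, ha⟩
  set S : ℝ → Set ℝ := fun θ => Set.Icc (0:ℝ) 1 ∩ (fun a : ℝ => pR L P ρ τ θ a) ⁻¹' G with hS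
  have hScl : ∀ θ, IsCompact (S θ) := by
    intro θ
    have := (hca θ).preimage_isClosed_of_isClosed isClosed_Icc hGc
    exact isCompact_Icc.of_isClosed_subset this Set.inter_subset_left
  have hSne : ∀ θ, (S θ).Nonempty := fun θ =>
    ⟨0, ⟨le_refl _, zero_le_one⟩, (interior_subset (h0 θ) : pR L P ρ τ θ 0 ∈ G)⟩
  set A : ℝ → ℝ := fun θ => sSup (S θ) with hA
  have hAm : ∀ θ, A θ ∈ S θ := fun θ => (hScl θ).sSup_mem (hSne θ)
  have hAle : ∀ θ a, a ∈ Set.Icc (0:ℝ) 1 → pR L P ρ τ θ a ∈ G → a ≤ A θ := by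
    intro θ a ha hp
    exact le_csSup (hScl θ).bddAbove ⟨ha, hp⟩
  have hA1 : ∀ θ, A θ < 1 := by
    intro θ
    refine lt_of_le_of_ne (hAm θ).1.2 ?_
    intro he
    have := (hAm θ).2
    rw [Set.mem_preimage, he] at this
    exact h1 θ this
  have hAni : ∀ θ, pR L P ρ τ θ (A θ) ∉ interior G := by
    intro θ hin
    have hct : ContinuousWithinAt (fun a : ℝ => pR L P ρ τ θ a) (Set.Icc (0:ℝ) 1) (A θ) :=
      hca θ _ (hAm θ).1
    have hev : ∀ᶠ a in nhdsWithin (A θ) (Set.Icc (0:ℝ) 1), pR L P ρ τ θ a ∈ interior G :=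
      hct (isOpen_interior.mem_nhds hin)
    have hev2 : ∀ᶠ a in nhdsWithin (A θ) (Set.Ioc (A θ) 1), pR L P ρ τ θ a ∈ interior G := by
      apply hev.filter_mono
      apply nhdsWithin_mono
      intro a ha
      exact ⟨(hAm θ).1.1.trans ha.1.le, ha.2⟩
    have hne : (nhdsWithin (A θ) (Set.Ioc (A θ) 1)).NeBot := by
      rw [nhdsWithin_Ioc_eq_nhdsGT (hA1 θ)]
      infer_instance
    obtain ⟨a, ha, ha'⟩ := (hev2.and self_mem_nhdsWithin).exists
    have := hAle θ a ⟨(hAm θ).1.1.trans ha'.1.le, ha'.2⟩ (interior_subset ha)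
    exact absurd ha'.1 (not_lt.2 this)
  have hA0 : ∀ θ, 0 < A θ := by
    intro θ
    refine lt_of_le_of_ne (hAm θ).1.1 ?_
    intro he
    apply hAni θ
    rw [← he]
    exact h0 θ
  have hAf : ∀ θ, pR L P ρ τ θ (A θ) ∈ frontier G := by
    intro θ
    rw [hGc.frontier_eq]
    exact ⟨(hAm θ).2, hAni θ⟩
  have hlt : ∀ θ a, 0 ≤ a → a < A θ → pR L P ρ τ θ a ∈ interior G := by
    intro θ a ha hlt
    exact hmono θ a (A θ) ha hlt (hA1 θ).le (hAm θ).2
  have hcont : Continuous A := by
    rw [continuous_iff_continuousAt]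
    intro θ₀
    unfold ContinuousAt
    rw [tendsto_order]
    constructor
    · intro a ha
      by_cases hneg : a < 0
      · exact Filter.Eventually.of_forall fun θ => hneg.trans (hA0 θ)
      · push Not at hneg
        have haI : a ∈ Set.Icc (0:ℝ) 1 := ⟨hneg, (ha.trans (hA1 θ₀)).le⟩
        have h2 : ∀ᶠ θ in nhds θ₀, pR L P ρ τ θ a ∈ interior G :=
          (hcθ a haI).continuousAt (isOpen_interior.mem_nhds (hlt θ₀ a hneg ha))
        filter_upwards [h2] with θ hθ
        refine lt_of_le_of_ne (hAle θ a haI (interior_subset hθ)) ?_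
        intro he
        apply hAni θ
        rw [← he]
        exact hθ
    · intro a ha
      by_cases hbig : 1 < a
      · exact Filter.Eventually.of_forall fun θ => (hA1 θ).trans hbig
      · push Not at hbig
        have haI : a ∈ Set.Icc (0:ℝ) 1 := ⟨((hA0 θ₀).trans ha).le, hbig⟩
        have hnot : pR L P ρ τ θ₀ a ∉ G := fun hc => absurd ha (not_lt.2 (hAle θ₀ a haI hc))
        have h2 : ∀ᶠ θ in nhds θ₀, pR L P ρ τ θ a ∈ Gᶜ :=
          (hcθ a haI).continuousAt (hGc.isOpen_compl.mem_nhds hnot)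
        filter_upwards [h2] with θ hθ
        by_contra hc
        push Not at hc
        rcases hc.lt_or_eq with h | h
        · exact hθ (interior_subset (hlt θ a haI.1 h))
        · apply hθ
          rw [h]
          exact (hAm θ).2
  -- periodicity
  have hLper : ∀ θ, L (θ + 2 * Real.pi) = L θ := by
    intro θ
    have h := hL.per (θ + Real.pi)
    rw [hL.per θ] at h
    rw [← h]
    congr 1
    ring
  have hdper : ∀ θ, dir (θ + 2 * Real.pi) = dir θ := by
    intro θ
    unfold dir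
    rw [Real.cos_add_two_pi, Real.sin_add_two_pi]
  have hpper : ∀ θ, ∀ a ∈ Set.Icc (0:ℝ) 1, pR L P ρ τ (θ + 2 * Real.pi) a = pR L P ρ τ θ a := by
    intro θ a ha
    unfold pR
    rw [hLper, hdper, hP.per θ a ha]
    have : θ + 2 * Real.pi + Real.pi = (θ + Real.pi) + 2 * Real.pi := by ring
    rw [this, hP.per (θ + Real.pi) a ha]
  have hAper : ∀ θ, A (θ + 2 * Real.pi) = A θ := by
    intro θ
    have : S (θ + 2 * Real.pi) = S θ := by
      ext a
      constructor
      · rintro ⟨ha, hp⟩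
        refine ⟨ha, ?_⟩
        rw [Set.mem_preimage, hpper θ a ha] at hp
        exact hp
      · rintro ⟨ha, hp⟩
        refine ⟨ha, ?_⟩
        rw [Set.mem_preimage, hpper θ a ha]
        exact hp
    simp only [hA, this]
  -- intermediate value
  have hd : ContinuousOn (fun θ => A θ - A (θ + Real.pi)) (Set.uIcc 0 Real.pi) :=
    (hcont.sub (hcont.comp (continuous_id.add continuous_const))).continuousOn
  have himg := intermediate_value_uIcc hd
  have hend : (0:ℝ) ∈ Set.uIcc (A 0 - A (0 + Real.pi)) (A Real.pi - A (Real.pi + Real.pi)) := by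
    have e1 : A (Real.pi + Real.pi) = A 0 := by
      have := hAper 0
      rw [← this]
      congr 1
      ring
    have e2 : A (0 + Real.pi) = A Real.pi := by rw [zero_add]
    rw [e1, e2, Set.mem_uIcc]
    rcases le_total (A 0) (A Real.pi) with h | h
    · left; constructor <;> linarith
    · right; constructor <;> linarith
  obtain ⟨θ, -, hθ⟩ := himg hend
  have he : A θ = A (θ + Real.pi) := by
    have : A θ - A (θ + Real.pi) = 0 := hθ
    linarith
  refine ⟨θ, A θ, hA0 θ, hA1 θ, hAf θ, ?_⟩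
  rw [he]
  exact hAf (θ + Real.pi)

end Pool.Agent.Helper93.AI
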